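import Pool.Agent.H31.MP.Basic

/-!
# MP_76b9e7_nt, row SQ: the sum over the moduli
-/

set_option autoImplicit false

open Finset Real ArithmeticFunction
open scoped Nat

namespace Pool.Agent.H94.MTP

open Pool.Agent.H31.MP

theorem mem_RS {z Y : ℝ} {a : ℕ} (h : a ∈ RS z Y) :
    1 ≤ a ∧ Squarefree a ∧ ∀ p : ℕ, p.Prime → p ∣ a → z < (p : ℝ) := by
  classical
  unfold RS at h
  have h1 := mem_filter.1 h
  exact ⟨(mem_Icc.1 h1.1).1, h1.2.1, h1.2.2⟩

theorem mem_Bx {K : ℕ} {z Y : ℝ} {d : Fin K → ℕ} (h : d ∈ Bx K z Y) (i : Fin K) :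
    1 ≤ d i ∧ Squarefree (d i) ∧ ∀ p : ℕ, p.Prime → p ∣ d i → z < (p : ℝ) := by
  unfold Bx at h
  rw [Fintype.mem_piFinset] at h
  exact mem_RS (h i)

theorem prime_dvd_lcm {p a b : ℕ} (hp : p.Prime) : p ∣ Nat.lcm a b ↔ p ∣ a ∨ p ∣ b := by
  constructor
  · intro h
    have h1 : p ∣ a * b := h.trans (Nat.lcm_dvd_mul a b)
    exact hp.dvd_mul.1 h1
  · rintro (h | h)
    · exact h.trans (Nat.dvd_lcm_left a b)
    · exact h.trans (Nat.dvd_lcm_right a b)

/-- the prime factors of the modulus -/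
theorem dvd_mod {K : ℕ} (s : Finset ℕ) (d e : Fin K → ℕ) (hs : ∀ p ∈ s, p.Prime) {p : ℕ}
    (hp : p.Prime) : p ∣ (∏ p ∈ s, p) * ∏ i, Nat.lcm (d i) (e i) ↔
      p ∈ s ∨ ∃ i, p ∣ d i ∨ p ∣ e i := by
  rw [hp.dvd_mul, hp.prime.dvd_finsetProd_iff, hp.prime.dvd_finsetProd_iff]
  constructor
  · rintro (⟨a, ha, h⟩ | ⟨i, -, h⟩)
    · left
      rw [(Nat.prime_dvd_prime_iff_eq hp (hs a ha)).1 h]
      exact ha
    · right
      exact ⟨i, (prime_dvd_lcm hp).1 h⟩
  · rintro (h | ⟨i, h⟩)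
    · left
      exact ⟨p, h, dvd_rfl⟩
    · right
      exact ⟨i, mem_univ i, (prime_dvd_lcm hp).2 h⟩

theorem pco_unique {K : ℕ} {d e : Fin K → ℕ} (h : Pco d e) {p : ℕ} (hp : p.Prime) {i j : Fin K}
    (hi : p ∣ d i ∨ p ∣ e i) (hj : p ∣ d j ∨ p ∣ e j) : i = j := by
  by_contra hne
  have h1 := h i j hne
  have h2 := Nat.dvd_gcd ((prime_dvd_lcm hp).2 hi) ((prime_dvd_lcm hp).2 hj)
  rw [Nat.Coprime] at h1
  rw [h1] at h2
  exact hp.one_lt.ne' (Nat.dvd_one.1 h2)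

/-- the admissible types of a prime -/
def typ (K : ℕ) : Finset (Finset (Fin K) × Finset (Fin K)) :=
  (univ.image fun i : Fin K => (({i} : Finset (Fin K)), (∅ : Finset (Fin K)))) ∪
  ((univ.image fun i : Fin K => ((∅ : Finset (Fin K)), ({i} : Finset (Fin K)))) ∪
  (univ.image fun i : Fin K => (({i} : Finset (Fin K)), ({i} : Finset (Fin K)))))

theorem card_typ (K : ℕ) : (typ K).card ≤ 3 * K := by
  unfold typ
  refine (card_union_le _ _).trans ?_
  have h1 := card_union_le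
    (univ.image fun i : Fin K => ((∅ : Finset (Fin K)), ({i} : Finset (Fin K))))
    (univ.image fun i : Fin K => (({i} : Finset (Fin K)), ({i} : Finset (Fin K))))
  have h2 : ∀ f : Fin K → Finset (Fin K) × Finset (Fin K), (univ.image f).card ≤ K := by
    intro f
    exact card_image_le.trans (by simp)
  have h3 := h2 (fun i : Fin K => (({i} : Finset (Fin K)), (∅ : Finset (Fin K))))
  have h4 := h2 (fun i : Fin K => ((∅ : Finset (Fin K)), ({i} : Finset (Fin K))))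
  have h5 := h2 (fun i : Fin K => (({i} : Finset (Fin K)), ({i} : Finset (Fin K))))
  omega

theorem fiber (K : ℕ) (hK : 1 ≤ K) (z Y : ℝ) (q : ℕ)
    (T : Finset (Finset ℕ × (Fin K → ℕ) × (Fin K → ℕ)))
    (hT : ∀ t ∈ T, (∀ p ∈ t.1, p.Prime ∧ (p : ℝ) ≤ z) ∧ t.2.1 ∈ Bx K z Y ∧ t.2.2 ∈ Bx K z Y ∧
      Pco t.2.1 t.2.2 ∧ (∏ p ∈ t.1, p) * ∏ i, Nat.lcm (t.2.1 i) (t.2.2 i) = q) :
    T.card ≤ (3 * K) ^ om q := by
  classical
  by_cases hTe : T = ∅
  · rw [hTe, card_empty]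
    exact Nat.zero_le _
  obtain ⟨t0, ht0⟩ := Finset.nonempty_iff_ne_empty.2 hTe
  have hq0 : q ≠ 0 := by
    obtain ⟨h1, h2, h3, -, h5⟩ := hT t0 ht0
    rw [← h5]
    refine mul_ne_zero (prod_ne_zero_iff.2 fun p hp => (h1 p hp).1.ne_zero)
      (prod_ne_zero_iff.2 fun i _ => Nat.lcm_ne_zero ?_ ?_)
    · have := (mem_Bx h2 i).1; omega
    · have := (mem_Bx h3 i).1; omega
  set AP : q.primeFactors → Finset (Finset (Fin K) × Finset (Fin K)) := fun p =>
    if (p : ℝ) ≤ z then {(∅, ∅)} else typ K with hAP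
  have hcard : (Fintype.piFinset AP).card ≤ (3 * K) ^ om q := by
    rw [Fintype.card_piFinset]
    refine (prod_le_pow_card univ _ (3 * K) fun p _ => ?_).trans ?_
    · rw [hAP]
      dsimp only
      split_ifs
      · rw [card_singleton]; omega
      · exact card_typ K
    · rw [card_univ, Fintype.card_coe]
      exact le_rfl
  refine le_trans ?_ hcard
  refine card_le_card_of_injOn (fun t p => (univ.filter fun i => (p : ℕ) ∣ t.2.1 i,
    univ.filter fun i => (p : ℕ) ∣ t.2.2 i)) ?_ ?_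
  · intro t ht
    rw [mem_coe] at ht ⊢
    obtain ⟨h1, h2, h3, h4, h5⟩ := hT t ht
    rw [Fintype.mem_piFinset]
    intro p
    have hp : (p : ℕ).Prime := Nat.prime_of_mem_primeFactors p.2
    have hpq : (p : ℕ) ∣ q := Nat.dvd_of_mem_primeFactors p.2
    rw [hAP]
    dsimp only
    split_ifs with hz
    · rw [mem_singleton]
      refine Prod.ext ?_ ?_
      · rw [filter_eq_empty_iff]
        intro i _ hi
        have := (mem_Bx h2 i).2.2 p hp hi
        linarith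
      · rw [filter_eq_empty_iff]
        intro i _ hi
        have := (mem_Bx h3 i).2.2 p hp hi
        linarith
    · have hpq2 := (dvd_mod _ _ _ (fun p hp => (h1 p hp).1) hp).1 (hpq.trans (dvd_of_eq h5.symm))
      rcases hpq2 with hps | ⟨i, hi⟩
      · exact absurd (h1 p hps).2 hz
      have hd : ∀ j, (p : ℕ) ∣ t.2.1 j → j = i := fun j hj =>
        pco_unique h4 hp (Or.inl hj) hi
      have he : ∀ j, (p : ℕ) ∣ t.2.2 j → j = i := fun j hj =>
        pco_unique h4 hp (Or.inr hj) hi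
      have hd1 : (p : ℕ) ∣ t.2.1 i → (univ.filter fun j => (p : ℕ) ∣ t.2.1 j) = {i} := by
        intro h
        ext j
        rw [mem_filter, mem_singleton]
        exact ⟨fun hj => hd j hj.2, fun hj => ⟨mem_univ _, by rw [hj]; exact h⟩⟩
      have he1 : (p : ℕ) ∣ t.2.2 i → (univ.filter fun j => (p : ℕ) ∣ t.2.2 j) = {i} := by
        intro h
        ext j
        rw [mem_filter, mem_singleton]
        exact ⟨fun hj => he j hj.2, fun hj => ⟨mem_univ _, by rw [hj]; exact h⟩⟩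
      have hd0 : ¬ (p : ℕ) ∣ t.2.1 i → (univ.filter fun j => (p : ℕ) ∣ t.2.1 j) = ∅ := by
        intro h
        rw [filter_eq_empty_iff]
        intro j _ hj
        rw [hd j hj] at hj
        exact h hj
      have he0 : ¬ (p : ℕ) ∣ t.2.2 i → (univ.filter fun j => (p : ℕ) ∣ t.2.2 j) = ∅ := by
        intro h
        rw [filter_eq_empty_iff]
        intro j _ hj
        rw [he j hj] at hj
        exact h hj
      unfold typ
      rw [mem_union, mem_union, mem_image, mem_image, mem_image]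
      by_cases a1 : (p : ℕ) ∣ t.2.1 i
      · by_cases a2 : (p : ℕ) ∣ t.2.2 i
        · right; right
          exact ⟨i, mem_univ _, by rw [hd1 a1, he1 a2]⟩
        · left
          exact ⟨i, mem_univ _, by rw [hd1 a1, he0 a2]⟩
      · have a2 := hi.resolve_left a1
        right; left
        exact ⟨i, mem_univ _, by rw [hd0 a1, he1 a2]⟩
  · intro t ht t' ht' heq
    rw [mem_coe] at ht ht'
    obtain ⟨h1, h2, h3, -, h5⟩ := hT t ht
    obtain ⟨h1', h2', h3', -, h5'⟩ := hT t' ht'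
    have hP : ∀ (t : Finset ℕ × (Fin K → ℕ) × (Fin K → ℕ)), t ∈ T → ∀ p : ℕ, p.Prime →
        (p ∣ q ↔ p ∈ t.1 ∨ ∃ i, p ∣ t.2.1 i ∨ p ∣ t.2.2 i) := by
      intro t ht p hp
      obtain ⟨h1, -, -, -, h5⟩ := hT t ht
      rw [← h5]
      exact dvd_mod _ _ _ (fun p hp => (h1 p hp).1) hp
    have hs : ∀ (t : Finset ℕ × (Fin K → ℕ) × (Fin K → ℕ)), t ∈ T →
        t.1 = q.primeFactors.filter (fun p : ℕ => (p : ℝ) ≤ z) := by
      intro t ht
      obtain ⟨h1, h2, h3, -, -⟩ := hT t ht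
      ext p
      rw [mem_filter, Nat.mem_primeFactors]
      constructor
      · intro hp
        exact ⟨⟨(h1 p hp).1, (hP t ht p (h1 p hp).1).2 (Or.inl hp), hq0⟩, (h1 p hp).2⟩
      · rintro ⟨⟨hp, hpq, -⟩, hz⟩
        rcases (hP t ht p hp).1 hpq with h | ⟨i, hi | hi⟩
        · exact h
        · have := (mem_Bx h2 i).2.2 p hp hi
          linarith
        · have := (mem_Bx h3 i).2.2 p hp hi
          linarith
    have hcode : ∀ p : ℕ, p.Prime → p ∣ q → (∀ i, p ∣ t.2.1 i ↔ p ∣ t'.2.1 i) ∧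
        ∀ i, p ∣ t.2.2 i ↔ p ∣ t'.2.2 i := by
      intro p hp hpq
      have h6 := congrFun heq ⟨p, Nat.mem_primeFactors.2 ⟨hp, hpq, hq0⟩⟩
      have h7 := congrArg Prod.fst h6
      have h8 := congrArg Prod.snd h6
      dsimp only at h7 h8
      constructor
      · intro i
        have h9 : i ∈ (univ.filter fun i => p ∣ t.2.1 i) ↔
            i ∈ (univ.filter fun i => p ∣ t'.2.1 i) := by rw [h7]
        rw [mem_filter, mem_filter] at h9
        simpa using h9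
      · intro i
        have h9 : i ∈ (univ.filter fun i => p ∣ t.2.2 i) ↔
            i ∈ (univ.filter fun i => p ∣ t'.2.2 i) := by rw [h8]
        rw [mem_filter, mem_filter] at h9
        simpa using h9
    have hsq : ∀ a b : ℕ, Squarefree a → Squarefree b → (∀ p : ℕ, p.Prime → (p ∣ a ↔ p ∣ b)) →
        a = b := by
      intro a b ha hb h
      rw [← Nat.prod_primeFactors_of_squarefree ha, ← Nat.prod_primeFactors_of_squarefree hb]
      congr 1
      ext p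
      rw [Nat.mem_primeFactors, Nat.mem_primeFactors]
      constructor
      · rintro ⟨hp, h1, -⟩
        exact ⟨hp, (h p hp).1 h1, hb.ne_zero⟩
      · rintro ⟨hp, h1, -⟩
        exact ⟨hp, (h p hp).2 h1, ha.ne_zero⟩
    refine Prod.ext ?_ (Prod.ext ?_ ?_)
    · rw [hs t ht, hs t' ht']
    · funext i
      refine hsq _ _ (mem_Bx h2 i).2.1 (mem_Bx h2' i).2.1 fun p hp => ?_
      constructor
      · intro h
        exact ((hcode p hp ((hP t ht p hp).2 (Or.inr ⟨i, Or.inl h⟩))).1 i).1 h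
      · intro h
        exact ((hcode p hp ((hP t' ht' p hp).2 (Or.inr ⟨i, Or.inl h⟩))).1 i).2 h
    · funext i
      refine hsq _ _ (mem_Bx h3 i).2.1 (mem_Bx h3' i).2.1 fun p hp => ?_
      constructor
      · intro h
        exact ((hcode p hp ((hP t ht p hp).2 (Or.inr ⟨i, Or.inr h⟩))).2 i).1 h
      · intro h
        exact ((hcode p hp ((hP t' ht' p hp).2 (Or.inr ⟨i, Or.inr h⟩))).2 i).2 h

theorem pf_SQ : T_SQ := by
  classical
  intro K W z Y y C l F S hK _ hC hY hy hl hF hS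
  -- the modulus and the bound of one term
  set md : Finset ℕ × (Fin K → ℕ) × (Fin K → ℕ) → ℕ := fun t =>
    (∏ p ∈ t.1, p) * ∏ i, Nat.lcm (t.2.1 i) (t.2.2 i) with hmd
  set G : ℕ → ℝ := fun q => C ^ 2 * (((K : ℝ) + 1) ^ om q * F (W * q)) with hG
  have hG0 : ∀ q, 0 ≤ G q := by
    intro q
    rw [hG]
    have := hF (W * q)
    positivity
  set T : Finset (Finset ℕ × (Fin K → ℕ) × (Fin K → ℕ)) :=
    (S ×ˢ (Bx K z Y ×ˢ Bx K z Y)).filter
      (fun t => Pco t.2.1 t.2.2 ∧ l t.2.1 ≠ 0 ∧ l t.2.2 ≠ 0) with hTd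
  have hT : ∀ t ∈ T, t.1 ∈ S ∧ t.2.1 ∈ Bx K z Y ∧ t.2.2 ∈ Bx K z Y ∧ Pco t.2.1 t.2.2 ∧
      l t.2.1 ≠ 0 ∧ l t.2.2 ≠ 0 := by
    intro t ht
    rw [hTd, mem_filter, mem_product, mem_product] at ht
    exact ⟨ht.1.1, ht.1.2.1, ht.1.2.2, ht.2⟩
  have hmd0 : ∀ t ∈ T, md t ≠ 0 := by
    intro t ht
    obtain ⟨h1, h2, h3, -⟩ := hT t ht
    rw [hmd]
    refine mul_ne_zero (prod_ne_zero_iff.2 fun p hp => ((hS _ h1).1 p hp).1.ne_zero)
      (prod_ne_zero_iff.2 fun i _ => Nat.lcm_ne_zero ?_ ?_)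
    · have := (mem_Bx h2 i).1; omega
    · have := (mem_Bx h3 i).1; omega
  have hmdle : ∀ t ∈ T, md t ∈ Icc 1 ⌊y * Y ^ 2⌋₊ := by
    intro t ht
    have h0 := hmd0 t ht
    obtain ⟨h1, h2, h3, -, h5, h6⟩ := hT t ht
    rw [mem_Icc]
    refine ⟨by omega, Nat.le_floor ?_⟩
    have e1 : ((∏ p ∈ t.1, p : ℕ) : ℝ) ≤ y := (hS _ h1).2
    have e2 : ((∏ i, Nat.lcm (t.2.1 i) (t.2.2 i) : ℕ) : ℝ) ≤ Y ^ 2 := by
      have e3 : (∏ i, Nat.lcm (t.2.1 i) (t.2.2 i)) ≤ (∏ i, t.2.1 i) * ∏ i, t.2.2 i := by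
        rw [← prod_mul_distrib]
        refine prod_le_prod' fun i _ => ?_
        refine Nat.le_of_dvd (Nat.mul_pos (mem_Bx h2 i).1 (mem_Bx h3 i).1) (Nat.lcm_dvd_mul _ _)
      have e4 : ((∏ i, Nat.lcm (t.2.1 i) (t.2.2 i) : ℕ) : ℝ) ≤
          ((∏ i, t.2.1 i : ℕ) : ℝ) * ((∏ i, t.2.2 i : ℕ) : ℝ) := by
        exact_mod_cast e3
      have e5 := (hl.supp _ h5).2
      have e6 := (hl.supp _ h6).2
      calc ((∏ i, Nat.lcm (t.2.1 i) (t.2.2 i) : ℕ) : ℝ)
          ≤ ((∏ i, t.2.1 i : ℕ) : ℝ) * ((∏ i, t.2.2 i : ℕ) : ℝ) := e4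
        _ ≤ Y * Y := mul_le_mul e5 e6 (Nat.cast_nonneg _) hY
        _ = Y ^ 2 := by ring
    have e7 : ((md t : ℕ) : ℝ) = ((∏ p ∈ t.1, p : ℕ) : ℝ) *
        ((∏ i, Nat.lcm (t.2.1 i) (t.2.2 i) : ℕ) : ℝ) := by
      rw [hmd]
      push_cast
      rfl
    rw [e7]
    exact mul_le_mul e1 e2 (Nat.cast_nonneg _) hy
  have hterm : ∀ t ∈ T, |l t.2.1| * |l t.2.2| * (((K : ℝ) + 1) ^ t.1.card *
      F (W * (∏ p ∈ t.1, p) * ∏ i, Nat.lcm (t.2.1 i) (t.2.2 i))) ≤ G (md t) := by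
    intro t ht
    have h0 := hmd0 t ht
    obtain ⟨h1, h2, h3, h4, h5, h6⟩ := hT t ht
    rw [hG]
    dsimp only
    have e1 : W * (∏ p ∈ t.1, p) * ∏ i, Nat.lcm (t.2.1 i) (t.2.2 i) = W * md t := by
      rw [hmd]
      ring
    rw [e1]
    have e2 : |l t.2.1| * |l t.2.2| ≤ C ^ 2 := by
      rw [pow_two]
      exact mul_le_mul (hl.bd _) (hl.bd _) (abs_nonneg _) hC
    have e3 : t.1.card ≤ om (md t) := by
      unfold om
      apply card_le_card
      intro p hp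
      have hpp := ((hS _ h1).1 p hp).1
      rw [Nat.mem_primeFactors]
      exact ⟨hpp, (dvd_mod _ _ _ (fun p hp => ((hS _ h1).1 p hp).1) hpp).2 (Or.inl hp), h0⟩
    have e4 : ((K : ℝ) + 1) ^ t.1.card ≤ ((K : ℝ) + 1) ^ om (md t) :=
      pow_le_pow_right₀ (by linarith [(Nat.cast_nonneg K : (0 : ℝ) ≤ K)]) e3
    have e5 := hF (W * md t)
    refine mul_le_mul e2 (mul_le_mul_of_nonneg_right e4 e5) ?_ (by positivity)
    positivity
  -- the left side as a sum over `T`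
  have hleft : ∑ s ∈ S, ∑ d ∈ Bx K z Y, ∑ e ∈ Bx K z Y, (if Pco d e then |l d| * |l e| *
      (((K : ℝ) + 1) ^ s.card * F (W * (∏ p ∈ s, p) * ∏ i, Nat.lcm (d i) (e i))) else 0) ≤
      ∑ t ∈ T, G (md t) := by
    have e1 : ∑ s ∈ S, ∑ d ∈ Bx K z Y, ∑ e ∈ Bx K z Y, (if Pco d e then |l d| * |l e| *
        (((K : ℝ) + 1) ^ s.card * F (W * (∏ p ∈ s, p) * ∏ i, Nat.lcm (d i) (e i))) else 0) =
        ∑ t ∈ S ×ˢ (Bx K z Y ×ˢ Bx K z Y), (if Pco t.2.1 t.2.2 then |l t.2.1| * |l t.2.2| *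
        (((K : ℝ) + 1) ^ t.1.card *
          F (W * (∏ p ∈ t.1, p) * ∏ i, Nat.lcm (t.2.1 i) (t.2.2 i))) else 0) := by
      rw [sum_product]
      refine sum_congr rfl fun s _ => ?_
      rw [sum_product]
    rw [e1, hTd, sum_filter]
    refine sum_le_sum fun t ht => ?_
    by_cases h1 : Pco t.2.1 t.2.2
    · by_cases h2 : l t.2.1 ≠ 0 ∧ l t.2.2 ≠ 0
      · rw [if_pos h1, if_pos ⟨h1, h2⟩]
        refine hterm t ?_
        rw [hTd, mem_filter]
        exact ⟨ht, h1, h2⟩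
      · rw [if_pos h1, if_neg (fun h => h2 h.2)]
        have h3 : |l t.2.1| * |l t.2.2| = 0 := by
          by_cases h4 : l t.2.1 = 0
          · rw [h4, abs_zero, zero_mul]
          · have h5 : l t.2.2 = 0 := by
              by_contra h6
              exact h2 ⟨h4, h6⟩
            rw [h5, abs_zero, mul_zero]
        rw [h3, zero_mul]
    · rw [if_neg h1]
      split_ifs
      · exact hG0 _
      · exact le_rfl
  refine hleft.trans ?_
  rw [← sum_fiberwise_of_maps_to hmdle, mul_sum]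
  refine sum_le_sum fun q _ => ?_
  have e1 : ∑ t ∈ T.filter (fun t => md t = q), G (md t) =
      ((T.filter (fun t => md t = q)).card : ℝ) * G q := by
    rw [sum_congr rfl (fun t ht => by rw [(mem_filter.1 ht).2] : ∀ t ∈ T.filter
      (fun t => md t = q), G (md t) = G q), sum_const, nsmul_eq_mul]
  rw [e1]
  have e2 : (T.filter (fun t => md t = q)).card ≤ (3 * K) ^ om q := by
    apply fiber K hK z Y q
    intro t ht
    rw [mem_filter] at ht
    obtain ⟨h1, h2, h3, h4, -⟩ := hT t ht.1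
    exact ⟨(hS _ h1).1, h2, h3, h4, ht.2⟩
  have e3 : ((T.filter (fun t => md t = q)).card : ℝ) ≤ (3 * (K : ℝ)) ^ om q := by
    exact_mod_cast e2
  refine (mul_le_mul_of_nonneg_right e3 (hG0 q)).trans (le_of_eq ?_)
  rw [hG, mul_pow (3 * (K : ℝ))]
  ring

end Pool.Agent.H94.MTP
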